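import Pool.Agent.TH37.RZ.Defs

/-!
Multilinear consequences with a coefficient one of identities over the integers.
-/

set_option autoImplicit false

namespace Pool.Agent.TH142.RZU

open Finset
open Pool.Agent.TH37.RZ

theorem prod_sum {C : Type} [Ring C] {l d : ℕ} (S : Fin l → Finset (Fin d))
    (a : Fin d → C) :
    (List.ofFn fun k => ∑ j ∈ S k, a j).prod =
      ∑ φ ∈ Fintype.piFinset S, (List.ofFn fun k => a (φ k)).prod := by
  have h := (MultilinearMap.mkPiAlgebraFin ℤ l C).map_sum_finset (fun _ j => a j) S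
  simpa [MultilinearMap.mkPiAlgebraFin_apply] using h

/-- inclusion-exclusion: the part of a substituted monomial of degree at most `d` in which all
`d` new variables occur -/
theorem incl_excl {C : Type} [Ring C] {n d : ℕ} (u : Fin d → Fin n)
    (a : Fin d → C) (w : List (Fin n)) (hw : w.length ≤ d) :
    ∑ U : Finset (Fin d), ((-1 : ℤ) ^ U.card) •
      (w.map fun i => ∑ j ∈ univ.filter (fun j => j ∉ U ∧ u j = i), a j).prod =
    ∑ τ : Equiv.Perm (Fin d), if List.ofFn (fun k => u (τ k)) = w then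
      (List.ofFn fun k => a (τ k)).prod else 0 := by
  classical
  obtain ⟨l, w', rfl⟩ : ∃ l, ∃ w' : Fin l → Fin n, w = List.ofFn w' :=
    ⟨w.length, w.get, (List.ofFn_get w).symm⟩
  rw [List.length_ofFn] at hw
  have h1 : ∀ U : Finset (Fin d),
      ((-1 : ℤ) ^ U.card) • ((List.ofFn w').map fun i =>
        ∑ j ∈ univ.filter (fun j => j ∉ U ∧ u j = i), a j).prod =
      ∑ φ : Fin l → Fin d, if (∀ k, φ k ∉ U) ∧ (∀ k, u (φ k) = w' k) then
        ((-1 : ℤ) ^ U.card) • (List.ofFn fun k => a (φ k)).prod else 0 := by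
    intro U
    rw [List.map_ofFn]
    have h2 := prod_sum (C := C)
      (fun k => univ.filter (fun j => j ∉ U ∧ u j = w' k)) a
    simp only [Function.comp_def]
    rw [h2, Finset.smul_sum, ← Finset.sum_filter]
    apply Finset.sum_congr _ (fun _ _ => rfl)
    ext φ
    simp only [Fintype.mem_piFinset, mem_filter, mem_univ, true_and]
    exact forall_and
  rw [Finset.sum_congr rfl (fun U _ => h1 U), Finset.sum_comm]
  have h3 : ∀ φ : Fin l → Fin d, (∑ U : Finset (Fin d),
      if (∀ k, φ k ∉ U) ∧ (∀ k, u (φ k) = w' k) then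
        ((-1 : ℤ) ^ U.card) • (List.ofFn fun k => a (φ k)).prod else 0) =
      if Function.Surjective φ ∧ (∀ k, u (φ k) = w' k) then
        (List.ofFn fun k => a (φ k)).prod else 0 := by
    intro φ
    by_cases hc : ∀ k, u (φ k) = w' k
    · simp only [hc, implies_true, and_true]
      have h4 : ∀ U : Finset (Fin d), (∀ k, φ k ∉ U) ↔ U ∈ ((univ.image φ)ᶜ).powerset := by
        intro U
        simp only [mem_powerset, subset_iff, mem_compl, mem_image, mem_univ, true_and, not_exists]
        constructor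
        · intro h x hx k hk
          exact h k (hk ▸ hx)
        · intro h k hk
          exact h hk k rfl
      rw [← Finset.sum_filter]
      have h5 : (univ.filter fun U : Finset (Fin d) => ∀ k, φ k ∉ U) =
          ((univ.image φ)ᶜ).powerset := by
        ext U
        simp only [mem_filter, mem_univ, true_and]
        exact h4 U
      rw [h5, ← Finset.sum_smul, Finset.sum_powerset_neg_one_pow_card]
      by_cases hs : Function.Surjective φ
      · have : (univ.image φ)ᶜ = ∅ := by
          rw [Finset.image_univ_of_surjective hs]; simp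
        rw [if_pos this, if_pos hs, one_smul]
      · have : (univ.image φ)ᶜ ≠ ∅ := by
          intro h
          apply hs
          intro y
          have hy : y ∉ (univ.image φ)ᶜ := by rw [h]; simp
          simpa using hy
        rw [if_neg this, if_neg hs, zero_smul]
    · simp [hc]
  rw [Finset.sum_congr rfl (fun φ _ => h3 φ)]
  rcases hw.lt_or_eq with hlt | rfl
  · rw [Finset.sum_eq_zero, Finset.sum_eq_zero]
    · intro τ _
      rw [if_neg]
      intro h
      have := congrArg List.length h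
      simp at this
      omega
    · intro φ _
      rw [if_neg]
      rintro ⟨h, -⟩
      have := Fintype.card_le_of_surjective φ h
      simp at this
      omega
  · symm
    apply Finset.sum_of_injOn (fun τ : Equiv.Perm (Fin l) => (τ : Fin l → Fin l))
    · intro τ _ τ' _ h
      exact Equiv.coe_fn_injective h
    · intro _ _
      simp
    · intro φ _ hφ
      rw [if_neg]
      rintro ⟨h, -⟩
      apply hφ
      exact ⟨Equiv.ofBijective φ (Finite.surjective_iff_bijective.1 h), by simp, rfl⟩
    · intro τ _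
      have : (List.ofFn (fun k => u (τ k)) = List.ofFn w') ↔
          (Function.Surjective τ ∧ ∀ k, u (τ k) = w' k) := by
        rw [List.ofFn_inj]
        constructor
        · intro h
          exact ⟨τ.surjective, fun k => congrFun h k⟩
        · rintro ⟨-, h⟩
          exact funext h
      by_cases h : List.ofFn (fun k => u (τ k)) = List.ofFn w'
      · rw [if_pos h, if_pos (this.1 h)]
      · rw [if_neg h, if_neg (fun h' => h (this.2 h'))]

/-- exact linearisation modulo an additive subgroup -/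
theorem lin_mod {C : Type} [Ring C] (B J : AddSubgroup C) (p : List (Fin 3) →₀ ℤ) (hp0 : p ≠ 0)
    (h : ∀ x ∈ B, ∀ y ∈ B, ∀ z ∈ B, ev3 p x y z ∈ J) :
    ∃ d : ℕ, ∃ w0 ∈ p.support, ∃ g : Equiv.Perm (Fin d) → ℤ, g 1 = p w0 ∧
      ∀ a : Fin d → C, (∀ i, a i ∈ B) →
        ∑ τ, g τ • (List.ofFn fun k => a (τ k)).prod ∈ J := by
  classical
  obtain ⟨w0, hw0, hmax⟩ := Finset.exists_max_image p.support (fun w => w.length)
    (Finsupp.support_nonempty_iff.2 hp0)
  refine ⟨w0.length, w0, hw0, fun τ => p (List.ofFn fun k => w0.get (τ k)), ?_, ?_⟩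
  · simp only [Equiv.Perm.coe_one, id_eq]
    rw [List.ofFn_get]
  intro a ha
  set u : Fin w0.length → Fin 3 := w0.get with hu
  have h1 : ∀ U : Finset (Fin w0.length), p.sum (fun w r => r • (w.map
      (fun i : Fin 3 => ∑ j ∈ univ.filter (fun j => j ∉ U ∧ u j = i), a j)).prod) ∈ J := by
    intro U
    have hb : ∀ i : Fin 3, (∑ j ∈ univ.filter (fun j => j ∉ U ∧ u j = i), a j) ∈ B :=
      fun i => B.sum_mem (fun j _ => ha j)
    have := h _ (hb 0) _ (hb 1) _ (hb 2)
    unfold ev3 at this
    have e : (fun i : Fin 3 => ∑ j ∈ univ.filter (fun j => j ∉ U ∧ u j = i), a j) =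
        ![∑ j ∈ univ.filter (fun j => j ∉ U ∧ u j = 0), a j,
          ∑ j ∈ univ.filter (fun j => j ∉ U ∧ u j = 1), a j,
          ∑ j ∈ univ.filter (fun j => j ∉ U ∧ u j = 2), a j] := by
      funext i
      fin_cases i <;> rfl
    rw [e]
    exact this
  have h2 : ∑ U : Finset (Fin w0.length), ((-1 : ℤ) ^ U.card) • p.sum (fun w r => r • (w.map
      (fun i : Fin 3 => ∑ j ∈ univ.filter (fun j => j ∉ U ∧ u j = i), a j)).prod) ∈ J :=
    J.sum_mem fun U _ => J.zsmul_mem (h1 U) _
  simp only [Finsupp.sum, Finset.smul_sum] at h2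
  rw [Finset.sum_comm] at h2
  have h3 : ∀ w ∈ p.support, (∑ U : Finset (Fin w0.length), ((-1 : ℤ) ^ U.card) •
      p w • (w.map (fun i : Fin 3 =>
        ∑ j ∈ univ.filter (fun j => j ∉ U ∧ u j = i), a j)).prod) =
      ∑ τ : Equiv.Perm (Fin w0.length), if List.ofFn (fun k => u (τ k)) = w then
        p w • (List.ofFn fun k => a (τ k)).prod else 0 := by
    intro w hw
    have h4 := incl_excl u a w (hmax w hw)
    have h5 := congrArg (fun x => p w • x) h4
    simp only [Finset.smul_sum, smul_ite, smul_zero] at h5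
    rw [← h5]
    apply Finset.sum_congr rfl
    intro U _
    exact smul_comm _ _ _
  rw [Finset.sum_congr rfl h3, Finset.sum_comm] at h2
  convert h2 using 2 with τ
  beta_reduce
  by_cases hτ : (List.ofFn fun k => u (τ k)) ∈ p.support
  · rw [Finset.sum_eq_single_of_mem _ hτ]
    · rw [if_pos rfl]
    · intro w _ hw
      rw [if_neg]
      intro h'
      exact hw h'.symm
  · rw [Finset.sum_eq_zero]
    · have : p (List.ofFn fun k => u (τ k)) = 0 := Finsupp.notMem_support_iff.mp hτ
      rw [this, zero_smul]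
    · intro w hw
      rw [if_neg]
      intro h'
      apply hτ
      rw [h']
      exact hw

/-- value of a multilinear polynomial -/
def ML {C : Type} [Ring C] {d : ℕ} (g : Equiv.Perm (Fin d) → ℤ) (a : Fin d → C) : C :=
  ∑ τ, g τ • (List.ofFn fun k => a (τ k)).prod

/-- renaming the variables -/
theorem ML_perm {C : Type} [Ring C] {d : ℕ} (g : Equiv.Perm (Fin d) → ℤ) (a : Fin d → C)
    (σ : Equiv.Perm (Fin d)) : ML g (fun k => a (σ k)) = ML (fun ρ => g (σ⁻¹ * ρ)) a := by
  unfold ML
  refine Finset.sum_bij (fun τ _ => σ * τ) (by simp) ?_ ?_ ?_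
  · intro τ _ τ' _ h
    exact mul_left_cancel h
  · intro ρ _
    exact ⟨σ⁻¹ * ρ, by simp, by simp⟩
  · intro τ _
    simp

/-- the block permutation -/
def blk {m n : ℕ} (σ : Equiv.Perm (Fin m) × Equiv.Perm (Fin n)) : Equiv.Perm (Fin (m + n)) :=
  finSumFinEquiv.permCongr (Equiv.Perm.sumCongr σ.1 σ.2)

theorem blk_left {m n : ℕ} (σ : Equiv.Perm (Fin m) × Equiv.Perm (Fin n)) (i : Fin m) :
    blk σ (Fin.castAdd n i) = Fin.castAdd n (σ.1 i) := by
  simp [blk, Equiv.permCongr_apply]

theorem blk_right {m n : ℕ} (σ : Equiv.Perm (Fin m) × Equiv.Perm (Fin n)) (i : Fin n) :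
    blk σ (Fin.natAdd m i) = Fin.natAdd m (σ.2 i) := by
  simp [blk, Equiv.permCongr_apply]

theorem blk_inj {m n : ℕ} : Function.Injective (blk (m := m) (n := n)) := by
  intro σ τ h
  refine Prod.ext (Equiv.ext fun i => ?_) (Equiv.ext fun i => ?_)
  · have := congrArg (fun π => π (Fin.castAdd n i)) h
    simp only [blk_left] at this
    exact Fin.castAdd_injective _ _ this
  · have := congrArg (fun π => π (Fin.natAdd m i)) h
    simp only [blk_right] at this
    exact Fin.natAdd_injective _ _ this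

theorem blk_one {m n : ℕ} : blk (m := m) (n := n) (1, 1) = 1 := by
  refine Equiv.ext fun i => ?_
  simp [blk, Equiv.permCongr_apply]

open Classical in
/-- product of multilinear polynomials -/
noncomputable def mulML {m n : ℕ} (f : Equiv.Perm (Fin m) → ℤ) (g : Equiv.Perm (Fin n) → ℤ)
    (τ : Equiv.Perm (Fin (m + n))) : ℤ :=
  ∑ σ : Equiv.Perm (Fin m) × Equiv.Perm (Fin n), if blk σ = τ then f σ.1 * g σ.2 else 0

theorem mulML_one {m n : ℕ} (f : Equiv.Perm (Fin m) → ℤ) (g : Equiv.Perm (Fin n) → ℤ)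
    (hf : f 1 = 1) (hg : g 1 = 1) : mulML f g 1 = 1 := by
  classical
  unfold mulML
  rw [Finset.sum_eq_single (1, 1)]
  · rw [if_pos blk_one, hf, hg, mul_one]
  · intro σ _ hσ
    rw [if_neg]
    intro h
    exact hσ (blk_inj (h.trans blk_one.symm))
  · simp

theorem ML_mulML {C : Type} [Ring C] {m n : ℕ} (f : Equiv.Perm (Fin m) → ℤ)
    (g : Equiv.Perm (Fin n) → ℤ) (a : Fin (m + n) → C) :
    ML (mulML f g) a = ML f (fun i => a (Fin.castAdd n i)) * ML g (fun i => a (Fin.natAdd m i)) := by
  classical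
  unfold ML mulML
  simp only [Finset.sum_smul]
  rw [Finset.sum_comm, Finset.sum_mul_sum, ← Finset.univ_product_univ, Finset.sum_product]
  refine Finset.sum_congr rfl fun σ _ => Finset.sum_congr rfl fun ρ _ => ?_
  rw [Finset.sum_eq_single (blk (σ, ρ))]
  · rw [if_pos rfl, List.ofFn_add, List.prod_append]
    have e1 : (List.ofFn fun i : Fin m => a (blk (σ, ρ) (Fin.castLE (Nat.le_add_right m n) i))) =
        List.ofFn fun i => a (Fin.castAdd n (σ i)) := by
      congr 1
      funext i
      exact congrArg a (blk_left (σ, ρ) i)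
    have e2 : (List.ofFn fun i : Fin n => a (blk (σ, ρ) (Fin.natAdd m i))) =
        List.ofFn fun i => a (Fin.natAdd m (ρ i)) := by
      congr 1
      funext i
      exact congrArg a (blk_right (σ, ρ) i)
    rw [e1, e2, smul_mul_assoc, mul_smul_comm, smul_smul]
  · intro τ _ h
    rw [if_neg (fun h' => h h'.symm), zero_smul]
  · simp

/-- JOB Z-UNIT -/
theorem unit_id {C : Type} [Ring C] (B : AddSubgroup C) (c : List (Fin 3) →₀ ℤ)
    (hc : ∀ p : ℕ, p.Prime → ∃ w, ¬ (p : ℤ) ∣ c w)
    (hid : ∀ x ∈ B, ∀ y ∈ B, ∀ z ∈ B, ev3 c x y z = 0) :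
    ∃ (d : ℕ) (nn : Equiv.Perm (Fin d) → ℤ), nn 1 = 1 ∧
      ∀ a : Fin d → C, (∀ i, a i ∈ B) →
        ∑ τ, nn τ • (List.ofFn fun k => a (τ k)).prod = 0 := by
  classical
  -- primes
  have hP : ∀ p : ℕ, p.Prime → ∃ (d : ℕ) (f : Equiv.Perm (Fin d) → ℤ), f 1 = 1 ∧
      ∀ a : Fin d → C, (∀ i, a i ∈ B) → ∃ y : C, ML f a = (p : ℤ) • y := by
    intro p hp
    let J : AddSubgroup C := (zsmulAddGroupHom (p : ℤ)).range
    have hJ : ∀ x, x ∈ J ↔ ∃ y : C, (p : ℤ) • y = x := fun x => Iff.rfl
    let c' : List (Fin 3) →₀ ℤ := c.filter (fun w => ¬ (p : ℤ) ∣ c w)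
    have hc' : c' ≠ 0 := by
      obtain ⟨w, hw⟩ := hc p hp
      intro h0
      have h1 : c' w = c w := Finsupp.filter_apply_pos _ _ hw
      rw [h0] at h1
      exact hw (by rw [← h1]; simp)
    have hid' : ∀ x ∈ B, ∀ y ∈ B, ∀ z ∈ B, ev3 c' x y z ∈ J := by
      intro x hx y hy z hz
      have h1 := hid x hx y hy z hz
      have h2 : c = c.filter (fun w => (p : ℤ) ∣ c w) + c' :=
        (Finsupp.filter_add_filter_not c _).symm
      have h3 : ev3 c x y z = ev3 (c.filter (fun w => (p : ℤ) ∣ c w)) x y z +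
          ev3 c' x y z := by
        conv_lhs => rw [h2]
        unfold ev3
        rw [Finsupp.sum_add_index' (by simp) (by intro a b d; simp [add_smul])]
      have h4 : ev3 (c.filter (fun w => (p : ℤ) ∣ c w)) x y z ∈ J := by
        unfold ev3
        rw [Finsupp.sum]
        refine J.sum_mem fun w hw => ?_
        have h5 : (p : ℤ) ∣ c w := by
          by_contra h6
          exact (Finsupp.mem_support_iff.mp hw) (Finsupp.filter_apply_neg _ _ h6)
        rw [Finsupp.filter_apply_pos (fun w => (p : ℤ) ∣ c w) c h5]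
        obtain ⟨k, hk⟩ := h5
        exact ⟨k • (w.map ![x, y, z]).prod, by
          change (p : ℤ) • (k • (w.map ![x, y, z]).prod) = _
          rw [hk, smul_smul]⟩
      have h5 : ev3 c' x y z = - ev3 (c.filter (fun w => (p : ℤ) ∣ c w)) x y z := by
        rw [eq_neg_iff_add_eq_zero, add_comm, ← h3, h1]
      rw [h5]
      exact J.neg_mem h4
    obtain ⟨d, w0, hw0, g, hg1, hg⟩ := lin_mod B J c' hc' hid'
    have hcop : ¬ (p : ℤ) ∣ g 1 := by
      rw [hg1]
      have h6 : ¬ (p : ℤ) ∣ c w0 := by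
        by_contra h7
        exact (Finsupp.mem_support_iff.mp hw0) (Finsupp.filter_apply_neg _ _ (not_not.mpr h7))
      rw [show c' w0 = c w0 from Finsupp.filter_apply_pos _ _ h6]
      exact h6
    have hco : IsCoprime (g 1) (p : ℤ) := by
      rw [isCoprime_comm]
      exact (Nat.prime_iff_prime_int.mp hp).coprime_iff_not_dvd.mpr hcop
    obtain ⟨u, v, huv⟩ := hco
    refine ⟨d, fun τ => u * g τ + (if τ = 1 then v * p else 0), ?_, ?_⟩
    · beta_reduce
      rw [if_pos rfl]
      linarith
    · intro a ha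
      obtain ⟨y, hy⟩ := (hJ _).mp (hg a ha)
      refine ⟨u • y + v • (List.ofFn fun k => a k).prod, ?_⟩
      unfold ML
      simp only [add_smul, Finset.sum_add_distrib, mul_smul, ← Finset.smul_sum]
      rw [← hy, Finset.sum_eq_single (1 : Equiv.Perm (Fin d))]
      · rw [if_pos rfl]
        simp only [Equiv.Perm.coe_one, id_eq, smul_add, mul_smul]
        rw [smul_comm u (p : ℤ) y, smul_comm v (p : ℤ)]
      · intro τ _ hτ
        rw [if_neg hτ, zero_smul]
      · simp
  -- content
  have h0 : ∃ m : ℕ, 0 < m ∧ ∃ (d : ℕ) (f : Equiv.Perm (Fin d) → ℤ), f 1 = 1 ∧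
      ∀ a : Fin d → C, (∀ i, a i ∈ B) → (m : ℤ) • ML f a = 0 := by
    have hc0 : c ≠ 0 := by
      rintro rfl
      obtain ⟨w, hw⟩ := hc 2 Nat.prime_two
      exact hw (by simp)
    obtain ⟨d, w0, hw0, G, hG1, hG⟩ := lin_mod B ⊥ c hc0 (fun x hx y hy z hz => by
      rw [AddSubgroup.mem_bot]; exact hid x hx y hy z hz)
    have hGne : G 1 ≠ 0 := by
      rw [hG1]; exact Finsupp.mem_support_iff.mp hw0
    obtain ⟨m, hm⟩ := (IsPrincipalIdealRing.principal (Ideal.span (Set.range G))).principal
    have hdiv : ∀ τ, ∃ g, G τ = m * g := by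
      intro τ
      have h1 : G τ ∈ Ideal.span (Set.range G) := Ideal.subset_span ⟨τ, rfl⟩
      rw [hm] at h1
      obtain ⟨g, hg⟩ := Ideal.mem_span_singleton'.mp h1
      exact ⟨g, by rw [← hg, mul_comm]⟩
    choose g hg using hdiv
    have hm0 : m ≠ 0 := by
      rintro rfl
      apply hGne
      rw [hg 1, zero_mul]
    have hmem : m ∈ Ideal.span (Set.range G) := by
      rw [hm]; exact Ideal.mem_span_singleton_self m
    obtain ⟨u, hu⟩ := Ideal.mem_span_range_iff_exists_fun.mp hmem
    have hu1 : ∑ σ, u σ * g σ = 1 := by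
      have h1 : m * ∑ σ, u σ * g σ = m * 1 := by
        rw [Finset.mul_sum, mul_one]
        conv_rhs => rw [← hu]
        refine Finset.sum_congr rfl fun σ _ => ?_
        rw [hg σ]
        ring
      exact mul_left_cancel₀ hm0 h1
    have hML : ∀ a : Fin d → C, (∀ i, a i ∈ B) → m • ML g a = 0 := by
      intro a ha
      have h1 := hG a ha
      rw [AddSubgroup.mem_bot] at h1
      rw [← h1]
      unfold ML
      rw [Finset.smul_sum]
      refine Finset.sum_congr rfl fun τ _ => ?_
      rw [hg τ, mul_smul]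
    refine ⟨m.natAbs, Int.natAbs_pos.mpr hm0, d, fun ρ => ∑ σ, u σ * g (σ * ρ), ?_, ?_⟩
    · simpa using hu1
    · intro a ha
      have h2 : ML (fun ρ => ∑ σ, u σ * g (σ * ρ)) a =
          ∑ σ : Equiv.Perm (Fin d), u σ • ML g (fun k => a (σ⁻¹ k)) := by
        simp only [ML_perm, inv_inv]
        unfold ML
        simp only [Finset.sum_smul, Finset.smul_sum, mul_smul]
        rw [Finset.sum_comm]
      have h3 : m • ML (fun ρ => ∑ σ, u σ * g (σ * ρ)) a = 0 := by
        rw [h2, Finset.smul_sum]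
        refine Finset.sum_eq_zero fun σ _ => ?_
        rw [smul_comm, hML _ (fun i => ha _), smul_zero]
      rcases Int.natAbs_eq m with h | h
      · rw [← h]; exact h3
      · rw [h, neg_smul, neg_eq_zero] at h3
        exact h3
  -- minimal
  obtain ⟨hpos, d, f, hf1, hf⟩ := Nat.find_spec h0
  have hone : Nat.find h0 = 1 := by
    by_contra hne
    obtain ⟨p, hp, k, hk⟩ := Nat.exists_prime_and_dvd hne
    have hkpos : 0 < k := by
      rcases Nat.eq_zero_or_pos k with h | h
      · rw [h, mul_zero] at hk; omega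
      · exact h
    have hlt : k < Nat.find h0 := by
      rw [hk]
      have := hp.two_le
      nlinarith
    apply Nat.find_min h0 hlt
    obtain ⟨d1, f1, h1, h2⟩ := hP p hp
    refine ⟨hkpos, d1 + d, mulML f1 f, mulML_one _ _ h1 hf1, fun a ha => ?_⟩
    rw [ML_mulML]
    obtain ⟨y, hy⟩ := h2 (fun i => a (Fin.castAdd d i)) (fun i => ha _)
    have h3 := hf (fun i => a (Fin.natAdd d1 i)) (fun i => ha _)
    rw [hy, ← smul_mul_assoc, smul_smul, smul_mul_assoc, ← mul_smul_comm]
    have h4 : ((k : ℤ) * (p : ℤ)) = ((Nat.find h0 : ℕ) : ℤ) := by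
      rw [hk]; push_cast; ring
    rw [h4, h3, mul_zero]
  refine ⟨d, f, hf1, fun a ha => ?_⟩
  have := hf a ha
  rw [hone, Nat.cast_one, one_smul] at this
  exact this

end Pool.Agent.TH142.RZU
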