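import Pool.Agent.TH142.RZ.GA
import Pool.Agent.TH142.RF.GB

set_option autoImplicit false

namespace Pool.Agent.TH142.RZ

open Pool.Agent.TH37.RZ
open Pool.Agent.TH37.RF (SameType)

section
variable {C : Type} [Ring C]

theorem semi_list (D : C) (u v : ℕ → C) (h : ∀ l, SemiconjBy D (u l) (v l)) (w : List ℕ) :
    SemiconjBy D (w.map u).prod (w.map v).prod := by
  induction w with
  | nil => simp
  | cons a w ih =>
    rw [List.map_cons, List.map_cons, List.prod_cons, List.prod_cons]
    exact (h a).mul_right ih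

theorem semi_GG (D x x' y y' z : C) (hx : SemiconjBy D x' x) (hy : SemiconjBy D y' y)
    (hz : SemiconjBy D z z) (f : List ℕ →₀ ℤ) (i j : ℕ) (n : ℕ → ℕ) :
    D * GG f i j n x' y' z = GG f i j n x y z * D := by
  unfold GG
  rw [Finsupp.sum, Finsupp.sum, Finset.mul_sum, Finset.sum_mul]
  refine Finset.sum_congr rfl fun w _ => ?_
  split_ifs with h
  · simp
  · rw [mul_smul_comm, smul_mul_assoc]
    congr 1
    refine semi_list D _ _ (fun l => ?_) w
    unfold sb
    refine SemiconjBy.add_right (SemiconjBy.add_right (hz.pow_right _) ?_) ?_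
    · split_ifs
      · exact hx
      · exact SemiconjBy.zero_right _
    · split_ifs
      · exact hy
      · exact SemiconjBy.zero_right _

end

/-! ### words `z^p y z^q x z^r` -/

section
variable {R : Type} [CommRing R]

/-- `x`, `y`, `z` -/
def mx : Matrix (Fin 3) (Fin 3) R := !![0, 0, 0; 0, 0, 1; 0, 0, 0]
/-- `y` -/
def my : Matrix (Fin 3) (Fin 3) R := !![0, 1, 0; 0, 0, 0; 0, 0, 0]
/-- `z` -/
def mz (t0 t1 t2 : R) : Matrix (Fin 3) (Fin 3) R := !![t0, 0, 0; 0, t1, 0; 0, 0, t2]

theorem gg_mat (t0 t1 t2 : R) (f : List ℕ →₀ ℤ) (i j : ℕ)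
    (n : ℕ → ℕ) : (gg f i j n (mx : Matrix (Fin 3) (Fin 3) R) my (mz t0 t1 t2)) 0 2 = 0 := by
  set D : Matrix (Fin 3) (Fin 3) R := mz 1 1 t2 with hD
  set x : Matrix (Fin 3) (Fin 3) R := mx with hx
  set y : Matrix (Fin 3) (Fin 3) R := my with hy
  set z : Matrix (Fin 3) (Fin 3) R := mz t0 t1 t2 with hz
  have e1 : SemiconjBy D (x * z) x := by
    rw [SemiconjBy, hD, hx, hz, mx, mz, mz]
    ext a b
    fin_cases a <;> fin_cases b <;> simp [Matrix.mul_apply, Fin.sum_univ_succ]
  have e2 : SemiconjBy D y y := by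
    rw [SemiconjBy, hD, hy, my, mz]
    ext a b
    fin_cases a <;> fin_cases b <;> simp [Matrix.mul_apply, Fin.sum_univ_succ]
  have e3 : SemiconjBy D z z := by
    rw [SemiconjBy, hD, hz, mz, mz]
    ext a b
    fin_cases a <;> fin_cases b <;> simp [Matrix.mul_apply, Fin.sum_univ_succ, mul_comm]
  have h0 : SemiconjBy D (0 : Matrix (Fin 3) (Fin 3) R) 0 := SemiconjBy.zero_right _
  have g1 := semi_GG D x (x * z) y y z e1 e2 e3 f i j n
  have g2 := semi_GG D 0 0 y y z h0 e2 e3 f i j n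
  have g3 := semi_GG D x (x * z) 0 0 z e1 h0 e3 f i j n
  have g4 := semi_GG D 0 0 0 0 z h0 h0 e3 f i j n
  unfold gg
  set A := GG f i j n (x * z) y z - GG f i j n 0 y z - GG f i j n (x * z) 0 z + GG f i j n 0 0 z
    with hA
  set A' := GG f i j n x y z - GG f i j n 0 y z - GG f i j n x 0 z + GG f i j n 0 0 z with hA'
  have g5 : D * A = A' * D := by
    rw [hA, hA']
    simp only [mul_sub, mul_add, sub_mul, add_mul, g1, g2, g3, g4]
  have g6 : (D * A) 0 2 = A 0 2 := by
    rw [hD, mz]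
    simp [Matrix.mul_apply, Fin.sum_univ_succ]
  have g7 : (A' * D) 0 2 = A' 0 2 * t2 := by
    rw [hD, mz]
    simp [Matrix.mul_apply, Fin.sum_univ_succ]
  have g8 : (A' * z) 0 2 = A' 0 2 * t2 := by
    rw [hz, mz]
    simp [Matrix.mul_apply, Fin.sum_univ_succ]
  rw [Matrix.sub_apply, g8, ← g7, ← g5, g6, sub_self]

theorem prod_mat (t0 t1 t2 : R) (w : List (Fin 3)) :
    (((w.map ![mx, my, mz t0 t1 t2]).prod 2 2 = 0) ∨ ∃ r, w = List.replicate r 2 ∧
      (w.map ![mx, my, mz t0 t1 t2]).prod 2 2 = t2 ^ r) ∧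
    (((w.map ![mx, my, mz t0 t1 t2]).prod 1 2 = 0) ∨ ∃ q r, w = List.replicate q 2 ++
        0 :: List.replicate r 2 ∧
      (w.map ![mx, my, mz t0 t1 t2]).prod 1 2 = t1 ^ q * t2 ^ r) ∧
    (((w.map ![mx, my, mz t0 t1 t2]).prod 0 2 = 0) ∨ ∃ p q r, w = List.replicate p 2 ++
        1 :: (List.replicate q 2 ++ 0 :: List.replicate r 2) ∧
      (w.map ![mx, my, mz t0 t1 t2]).prod 0 2 = t0 ^ p * t1 ^ q * t2 ^ r) := by
  induction w with
  | nil => simp
  | cons a w ih =>
    obtain ⟨h1, h2, h3⟩ := ih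
    rw [List.map_cons, List.prod_cons]
    set W := (w.map ![mx, my, mz t0 t1 t2]).prod with hW
    fin_cases a
    · have e2 : ((mx : Matrix (Fin 3) (Fin 3) R) * W) 2 2 = 0 := by
        rw [mx]; simp [Matrix.mul_apply, Fin.sum_univ_succ]
      have e3 : ((mx : Matrix (Fin 3) (Fin 3) R) * W) 1 2 = W 2 2 := by
        rw [mx]; simp [Matrix.mul_apply, Fin.sum_univ_succ]
      have e4 : ((mx : Matrix (Fin 3) (Fin 3) R) * W) 0 2 = 0 := by
        rw [mx]; simp [Matrix.mul_apply, Fin.sum_univ_succ]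
      refine ⟨Or.inl e2, ?_, Or.inl e4⟩
      change ((mx : Matrix (Fin 3) (Fin 3) R) * W) 1 2 = 0 ∨ ∃ q r, (0 : Fin 3) :: w = _ ∧ ((mx : Matrix (Fin 3) (Fin 3) R) * W) 1 2 = _
      rw [e3]
      rcases h1 with h1 | ⟨r, hr, h1⟩
      · exact Or.inl h1
      · exact Or.inr ⟨0, r, by simp [hr], by simp [h1]⟩
    · have e2 : ((my : Matrix (Fin 3) (Fin 3) R) * W) 2 2 = 0 := by
        rw [my]; simp [Matrix.mul_apply, Fin.sum_univ_succ]
      have e3 : ((my : Matrix (Fin 3) (Fin 3) R) * W) 1 2 = 0 := by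
        rw [my]; simp [Matrix.mul_apply, Fin.sum_univ_succ]
      have e4 : ((my : Matrix (Fin 3) (Fin 3) R) * W) 0 2 = W 1 2 := by
        rw [my]; simp [Matrix.mul_apply, Fin.sum_univ_succ]
      refine ⟨Or.inl e2, Or.inl e3, ?_⟩
      change ((my : Matrix (Fin 3) (Fin 3) R) * W) 0 2 = 0 ∨ ∃ p q r, (1 : Fin 3) :: w = _ ∧ ((my : Matrix (Fin 3) (Fin 3) R) * W) 0 2 = _
      rw [e4]
      rcases h2 with h2 | ⟨q, r, hr, h2⟩
      · exact Or.inl h2
      · exact Or.inr ⟨0, q, r, by simp [hr], by simp [h2]⟩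
    · have e2 : (mz t0 t1 t2 * W) 2 2 = t2 * W 2 2 := by
        rw [mz]; simp [Matrix.mul_apply, Fin.sum_univ_succ]
      have e3 : (mz t0 t1 t2 * W) 1 2 = t1 * W 1 2 := by
        rw [mz]; simp [Matrix.mul_apply, Fin.sum_univ_succ]
      have e4 : (mz t0 t1 t2 * W) 0 2 = t0 * W 0 2 := by
        rw [mz]; simp [Matrix.mul_apply, Fin.sum_univ_succ]
      refine ⟨?_, ?_, ?_⟩
      · change (mz t0 t1 t2 * W) 2 2 = 0 ∨ ∃ r, (2 : Fin 3) :: w = _ ∧ (mz t0 t1 t2 * W) 2 2 = _
        rw [e2]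
        rcases h1 with h1 | ⟨r, hr, h1⟩
        · left; rw [h1, mul_zero]
        · right
          exact ⟨r + 1, by rw [hr, List.replicate_succ], by rw [h1]; ring⟩
      · change (mz t0 t1 t2 * W) 1 2 = 0 ∨ ∃ q r, (2 : Fin 3) :: w = _ ∧
          (mz t0 t1 t2 * W) 1 2 = _
        rw [e3]
        rcases h2 with h2 | ⟨q, r, hr, h2⟩
        · left; rw [h2, mul_zero]
        · right
          exact ⟨q + 1, r, by rw [hr, List.replicate_succ]; rfl, by rw [h2]; ring⟩
      · change (mz t0 t1 t2 * W) 0 2 = 0 ∨ ∃ p q r, (2 : Fin 3) :: w = _ ∧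
          (mz t0 t1 t2 * W) 0 2 = _
        rw [e4]
        rcases h3 with h3 | ⟨p, q, r, hr, h3⟩
        · left; rw [h3, mul_zero]
        · right
          exact ⟨p + 1, q, r, by rw [hr, List.replicate_succ]; rfl, by rw [h3]; ring⟩

theorem prod_mat_val (t0 t1 t2 : R) (p q r : ℕ) :
    ((List.replicate p 2 ++ 1 :: (List.replicate q 2 ++ 0 :: List.replicate r (2 : Fin 3))).map
      ![mx, my, mz t0 t1 t2]).prod 0 2 = t0 ^ p * t1 ^ q * t2 ^ r := by
  have h2 : ∀ r : ℕ, ((List.replicate r (2 : Fin 3)).map ![mx, my, mz t0 t1 t2]).prod 2 2 =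
      t2 ^ r := by
    intro r
    induction r with
    | zero => simp
    | succ r ih =>
      rw [List.replicate_succ, List.map_cons, List.prod_cons]
      set W := ((List.replicate r (2 : Fin 3)).map ![mx, my, mz t0 t1 t2]).prod with hW
      have e2 : (mz t0 t1 t2 * W) 2 2 = t2 * W 2 2 := by
        rw [mz]; simp [Matrix.mul_apply, Fin.sum_univ_succ]
      change (mz t0 t1 t2 * W) 2 2 = _
      rw [e2, ih]
      ring
  have h1 : ∀ q r : ℕ, ((List.replicate q 2 ++ 0 :: List.replicate r (2 : Fin 3)).map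
      ![mx, my, mz t0 t1 t2]).prod 1 2 = t1 ^ q * t2 ^ r := by
    intro q r
    induction q with
    | zero =>
      rw [List.replicate_zero, List.nil_append, List.map_cons, List.prod_cons]
      set W := ((List.replicate r (2 : Fin 3)).map ![mx, my, mz t0 t1 t2]).prod with hW
      have e2 : ((mx : Matrix (Fin 3) (Fin 3) R) * W) 1 2 = W 2 2 := by
        rw [mx]; simp [Matrix.mul_apply, Fin.sum_univ_succ]
      change ((mx : Matrix (Fin 3) (Fin 3) R) * W) 1 2 = _
      rw [e2, hW, h2]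
      ring
    | succ q ih =>
      rw [List.replicate_succ, List.cons_append, List.map_cons, List.prod_cons]
      set W := ((List.replicate q 2 ++ 0 :: List.replicate r (2 : Fin 3)).map
        ![mx, my, mz t0 t1 t2]).prod with hW
      have e2 : (mz t0 t1 t2 * W) 1 2 = t1 * W 1 2 := by
        rw [mz]; simp [Matrix.mul_apply, Fin.sum_univ_succ]
      change (mz t0 t1 t2 * W) 1 2 = _
      rw [e2, ih]
      ring
  induction p with
  | zero =>
    rw [List.replicate_zero, List.nil_append, List.map_cons, List.prod_cons]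
    set W := ((List.replicate q 2 ++ 0 :: List.replicate r (2 : Fin 3)).map
        ![mx, my, mz t0 t1 t2]).prod with hW
    have e2 : ((my : Matrix (Fin 3) (Fin 3) R) * W) 0 2 = W 1 2 := by
      rw [my]; simp [Matrix.mul_apply, Fin.sum_univ_succ]
    change ((my : Matrix (Fin 3) (Fin 3) R) * W) 0 2 = _
    rw [e2, hW, h1]
    ring
  | succ p ih =>
    rw [List.replicate_succ, List.cons_append, List.map_cons, List.prod_cons]
    set W := ((List.replicate p 2 ++ 1 :: (List.replicate q 2 ++ 0 ::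
      List.replicate r (2 : Fin 3))).map ![mx, my, mz t0 t1 t2]).prod with hW
    have e2 : (mz t0 t1 t2 * W) 0 2 = t0 * W 0 2 := by
      rw [mz]; simp [Matrix.mul_apply, Fin.sum_univ_succ]
    change (mz t0 t1 t2 * W) 0 2 = _
    rw [e2, ih]
    ring

end

theorem lin_zero (c : List (Fin 3) →₀ ℤ)
    (h : ev3 c (mx : Matrix (Fin 3) (Fin 3) (MvPolynomial (Fin 3) ℤ)) my
      (mz (MvPolynomial.X 0) (MvPolynomial.X 1) (MvPolynomial.X 2)) 0 2 = 0) (p q r : ℕ) :
    c (List.replicate p 2 ++ 1 :: (List.replicate q 2 ++ 0 :: List.replicate r 2)) = 0 := by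
  classical
  set w0 : List (Fin 3) := List.replicate p 2 ++ 1 :: (List.replicate q 2 ++ 0 ::
    List.replicate r 2) with hw0
  set m : Fin 3 →₀ ℕ := Finsupp.single 0 p + Finsupp.single 1 q + Finsupp.single 2 r with hm
  have hmon : ∀ p q r : ℕ, (MvPolynomial.X 0 ^ p * MvPolynomial.X 1 ^ q * MvPolynomial.X 2 ^ r :
      MvPolynomial (Fin 3) ℤ) = MvPolynomial.monomial (Finsupp.single 0 p + Finsupp.single 1 q +
        Finsupp.single 2 r) 1 := by
    intro p q r
    rw [MvPolynomial.X_pow_eq_monomial, MvPolynomial.X_pow_eq_monomial,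
      MvPolynomial.X_pow_eq_monomial, MvPolynomial.monomial_mul, MvPolynomial.monomial_mul]
    simp
  have h1 : MvPolynomial.coeff m (ev3 c (mx : Matrix (Fin 3) (Fin 3) (MvPolynomial (Fin 3) ℤ)) my
      (mz (MvPolynomial.X 0) (MvPolynomial.X 1) (MvPolynomial.X 2)) 0 2) = c w0 := by
    unfold ev3
    rw [Finsupp.sum, Matrix.sum_apply, MvPolynomial.coeff_sum, Finset.sum_eq_single w0]
    · rw [Matrix.smul_apply, hw0, prod_mat_val, hmon, MvPolynomial.coeff_smul,
        MvPolynomial.coeff_monomial, if_pos hm.symm]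
      simp
    · intro w _ hw
      rw [Matrix.smul_apply, MvPolynomial.coeff_smul]
      rcases (prod_mat (MvPolynomial.X 0 : MvPolynomial (Fin 3) ℤ) (MvPolynomial.X 1)
        (MvPolynomial.X 2) w).2.2 with h3 | ⟨p', q', r', h3, h4⟩
      · rw [h3]; simp
      · rw [h4, hmon, MvPolynomial.coeff_monomial, if_neg, smul_zero]
        intro h5
        apply hw
        have e0 : p' = p := by
          have := DFunLike.congr_fun h5 (0 : Fin 3)
          simpa [hm] using this
        have e1 : q' = q := by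
          have := DFunLike.congr_fun h5 (1 : Fin 3)
          simpa [hm] using this
        have e2 : r' = r := by
          have := DFunLike.congr_fun h5 (2 : Fin 3)
          simpa [hm] using this
        rw [h3, hw0, e0, e1, e2]
    · intro h3
      rw [Finsupp.notMem_support_iff.mp h3, zero_smul]
      simp
  rw [← h1, h]
  simp

theorem word_z (w : List (Fin 3)) (h0 : w.count 0 = 0) (h1 : w.count 1 = 0) :
    w = List.replicate w.length 2 := by
  rw [List.eq_replicate_iff]
  refine ⟨rfl, fun b hb => ?_⟩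
  have h2 : (0 : Fin 3) ∉ w := List.count_eq_zero.mp h0
  have h3 : (1 : Fin 3) ∉ w := List.count_eq_zero.mp h1
  fin_cases b
  · exact absurd hb h2
  · exact absurd hb h3
  · rfl

theorem word_x (w : List (Fin 3)) (h0 : w.count 0 = 1) (h1 : w.count 1 = 0) :
    ∃ j k, w = List.replicate j 2 ++ 0 :: List.replicate k 2 := by
  induction w with
  | nil => simp at h0
  | cons a w ih =>
    fin_cases a
    · refine ⟨0, w.length, ?_⟩
      have := word_z w (by simpa using h0) (by simpa using h1)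
      simp only [List.replicate_zero, List.nil_append]
      rw [← this]
      rfl
    · simp at h1
    · obtain ⟨j, k, h⟩ := ih (by simpa using h0) (by simpa using h1)
      exact ⟨j + 1, k, by rw [h, List.replicate_succ]; rfl⟩

theorem word_y (w : List (Fin 3)) (h0 : w.count 0 = 0) (h1 : w.count 1 = 1) :
    ∃ j k, w = List.replicate j 2 ++ 1 :: List.replicate k 2 := by
  induction w with
  | nil => simp at h1
  | cons a w ih =>
    fin_cases a
    · simp at h0
    · refine ⟨0, w.length, ?_⟩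
      have := word_z w (by simpa using h0) (by simpa using h1)
      simp only [List.replicate_zero, List.nil_append]
      rw [← this]
      rfl
    · obtain ⟨j, k, h⟩ := ih (by simpa using h0) (by simpa using h1)
      exact ⟨j + 1, k, by rw [h, List.replicate_succ]; rfl⟩

theorem word_xy (w : List (Fin 3)) (h0 : w.count 0 = 1) (h1 : w.count 1 = 1) :
    (∃ i j k, w = List.replicate i 2 ++ 0 :: (List.replicate j 2 ++ 1 :: List.replicate k 2)) ∨
    (∃ i j k, w = List.replicate i 2 ++ 1 :: (List.replicate j 2 ++ 0 :: List.replicate k 2)) := by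
  induction w with
  | nil => simp at h1
  | cons a w ih =>
    fin_cases a
    · obtain ⟨j, k, h⟩ := word_y w (by simpa using h0) (by simpa using h1)
      exact Or.inl ⟨0, j, k, by rw [h]; rfl⟩
    · obtain ⟨j, k, h⟩ := word_x w (by simpa using h0) (by simpa using h1)
      exact Or.inr ⟨0, j, k, by rw [h]; rfl⟩
    · rcases ih (by simpa using h0) (by simpa using h1) with ⟨i, j, k, h⟩ | ⟨i, j, k, h⟩
      · exact Or.inl ⟨i + 1, j, k, by rw [h, List.replicate_succ]; rfl⟩
      · exact Or.inr ⟨i + 1, j, k, by rw [h, List.replicate_succ]; rfl⟩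

theorem cc_lin (f : List ℕ →₀ ℤ) (i j : ℕ) (n : ℕ → ℕ) :
    ∀ w ∈ (cc f i j n).support, w.count 0 = 1 → w.count 1 = 1 →
    ∃ i j k, w = List.replicate i 2 ++ 0 :: (List.replicate j 2 ++ 1 :: List.replicate k 2) := by
  intro w hw h0 h1
  rcases word_xy w h0 h1 with h | ⟨p, q, r, h⟩
  · exact h
  · exfalso
    refine (Finsupp.mem_support_iff.mp hw) ?_
    rw [h]
    apply lin_zero
    rw [ev3_cc]
    exact gg_mat _ _ _ f i j n

end Pool.Agent.TH142.RZ
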