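import Pool.Agent.TH142.RZ.GC
import Pool.Agent.TH142.RF.GSTAR

set_option autoImplicit false

namespace Pool.Agent.TH142.RZ

open Pool.Agent.TH37.RZ
open Pool.Agent.TH37.RF (SameType)

theorem mid_eq (n : ℕ → ℕ) (w : List ℕ) : mid n w = Pool.Agent.TH142.RF.mid n w := rfl

theorem finsum_type (f : List ℕ →₀ ℤ) (P : List ℕ → Prop) [DecidablePred P] :
    (∑ᶠ (w' : List ℕ) (_ : P w'), f w') = ∑ w ∈ f.support, if P w then f w else 0 := by
  classical
  have h1 : ∀ w', (∑ᶠ (_ : P w'), f w') = if P w' then f w' else 0 := by
    intro w'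
    exact finsum_eq_if
  rw [finsum_congr h1]
  apply finsum_eq_sum_of_support_subset
  intro w hw
  rw [Function.mem_support] at hw
  rw [Finset.mem_coe, Finsupp.mem_support_iff]
  intro h
  apply hw
  rw [h]
  simp

/-- `Cond` without the pivot -/
structure Cond0 (c : List (Fin 3) →₀ ℤ) : Prop where
  two : ∀ w ∈ c.support, (0 : Fin 3) ∈ w ∧ (1 : Fin 3) ∈ w
  lin : ∀ w ∈ c.support, w.count 0 = 1 → w.count 1 = 1 →
    ∃ i j k, w = List.replicate i 2 ++ 0 :: (List.replicate j 2 ++ 1 :: List.replicate k 2)

/-- one identity and one type -/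
theorem gstar1 (f : List ℕ →₀ ℤ) (w0 : List ℕ) (hw0 : w0 ≠ []) :
    ∃ c : List (Fin 3) →₀ ℤ, Cond0 c ∧
      (∃ n, c (0 :: (List.replicate n 2 ++ [1])) =
        ∑ᶠ (w' : List ℕ) (_ : SameType w0 w'), f w') ∧
      ∀ (C : Type) [Ring C] (B : TwoSidedIdeal C),
      (∀ a : ℕ → C, (∀ i, a i ∈ B) →
        (f.sum fun w r => if w = [] then 0 else r • (w.map a).prod) = 0) →
      ∀ x ∈ B, ∀ y ∈ B, ∀ z ∈ B, ev3 c x y z = 0 := by
  classical
  rw [finsum_type]
  cases w0 with
  | nil => exact absurd rfl hw0
  | cons i w0 =>
    rcases List.eq_nil_or_concat w0 with rfl | ⟨m, j, rfl⟩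
    · -- one letter
      clear hw0
      have hst : ∀ w, SameType [i] w ↔ w = [i] := by
        intro w
        constructor
        · intro h
          exact (List.perm_singleton.mp h.2.2.symm)
        · rintro rfl
          exact ⟨rfl, rfl, List.Perm.refl _⟩
      have hsum : (∑ w ∈ f.support, if SameType [i] w then f w else 0) = f [i] := by
        simp only [hst]
        rw [Finset.sum_ite_eq']
        split_ifs with h
        · rfl
        · exact (Finsupp.notMem_support_iff.mp h).symm
      rw [hsum]
      let T : List ℕ → ℤ → (List (Fin 3) →₀ ℤ) := fun w r =>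
        if w ≠ [] ∧ (∀ l ∈ w, l = i) then
          Finsupp.single (0 :: (List.replicate w.length 2 ++ [1])) r else 0
      have hform : ∀ u, (f.sum T) u ≠ 0 → ∃ n, u = 0 :: (List.replicate n 2 ++ [1]) := by
        intro u hu
        by_contra hcon
        push Not at hcon
        apply hu
        rw [Finsupp.sum, Finsupp.finsetSum_apply]
        refine Finset.sum_eq_zero fun w _ => ?_
        simp only [T]
        split_ifs
        · rw [Finsupp.single_apply, if_neg]
          exact fun h => hcon _ h.symm
        · rfl
      refine ⟨f.sum T, ⟨?_, ?_⟩, ?_, ?_⟩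
      · intro w hw
        obtain ⟨n, rfl⟩ := hform w (Finsupp.mem_support_iff.mp hw)
        simp
      · intro w hw _ _
        obtain ⟨n, rfl⟩ := hform w (Finsupp.mem_support_iff.mp hw)
        exact ⟨0, n, 0, rfl⟩
      · refine ⟨1, ?_⟩
        rw [Finsupp.sum, Finsupp.finsetSum_apply, Finset.sum_eq_single [i]]
        · simp [T]
        · intro w _ hw
          simp only [T]
          split_ifs with h1
          · rw [Finsupp.single_apply, if_neg]
            intro h2
            apply hw
            have h3 := congrArg List.length h2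
            simp only [List.length_cons, List.length_append, List.length_replicate] at h3
            have h4 : w.length = 1 := by simpa using h3
            obtain ⟨a, rfl⟩ := List.length_eq_one_iff.mp h4
            rw [h1.2 a (by simp)]
          · rfl
        · intro h
          rw [Finsupp.notMem_support_iff.mp h]
          simp [T]
      · intro C _ B hB x hx y hy z hz
        have h1 := hB (fun l => if l = i then z else 0) (by
          intro l
          split_ifs
          · exact hz
          · exact B.zero_mem)
        have h2 : ev3 (f.sum T) x y z = x * (f.sum fun w r => if w = [] then 0 else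
            r • (w.map fun l => if l = i then z else 0).prod) * y := by
          rw [Finsupp.sum, Finsupp.sum, Finset.mul_sum, Finset.sum_mul]
          unfold ev3
          rw [← Finsupp.sum_finsetSum_index (by simp) (by intro a b c; simp [add_smul])]
          refine Finset.sum_congr rfl fun w _ => ?_
          simp only [T]
          by_cases hw : w = []
          · simp [hw]
          · rw [if_neg hw]
            by_cases hi : ∀ l ∈ w, l = i
            · rw [if_pos ⟨hw, hi⟩, Finsupp.sum_single_index (by simp)]
              have h3 : (w.map fun l => if l = i then z else 0) = List.replicate w.length z := by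
                rw [List.eq_replicate_iff]
                refine ⟨by simp, ?_⟩
                intro b hb
                obtain ⟨l, hl, rfl⟩ := List.mem_map.mp hb
                rw [if_pos (hi l hl)]
              rw [h3, List.prod_replicate, mul_smul_comm, smul_mul_assoc]
              congr 1
              simp [mul_assoc]
            · rw [if_neg (fun h => hi h.2)]
              have h3 : (w.map fun l => if l = i then z else 0).prod = 0 := by
                apply List.prod_eq_zero
                push Not at hi
                obtain ⟨l, hl, hli⟩ := hi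
                rw [List.mem_map]
                exact ⟨l, hl, by rw [if_neg hli]⟩
              rw [h3]
              simp
        rw [h2, h1]
        simp
    · -- at least two letters
      rw [List.concat_eq_append]
      set R : ℕ := (f.support.sup List.length) + m.length + 2 with hR
      have hmR : m.length < R := by omega
      have hwR : ∀ w ∈ f.support, w.length < R := by
        intro w hw
        have := Finset.le_sup (f := List.length) hw
        omega
      have hn : ∀ l, 1 ≤ (fun l => R ^ l) l := fun l => Nat.one_le_pow _ _ (by omega)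
      refine ⟨cc f i j (fun l => R ^ l), ⟨cc_two _ _ _ _, cc_lin _ _ _ _⟩, ?_, ?_⟩
      · refine ⟨mid (R ^ ·) (i :: (m ++ [j])) + 1, ?_⟩
        rw [← piv_coeff, ev3_cc, gg_val _ _ _ _ _ hn, Polynomial.coeff_X_mul]
        rw [Finsupp.sum, Polynomial.finsetSum_coeff]
        refine Finset.sum_congr rfl fun w hw => ?_
        rw [Polynomial.coeff_smul]
        have h3 := Pool.Agent.TH142.RF.sameType_iff R i j m w hmR (hwR w hw)
        by_cases hst : SameType (i :: (m ++ [j])) w
        · rw [if_pos hst]
          obtain ⟨h4, h5⟩ := h3.mpr hst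
          rw [if_pos h4, mid_eq, mid_eq, ← h5, Polynomial.coeff_X_pow, if_pos rfl]
          simp
        · rw [if_neg hst]
          by_cases h4 : w.head? = some i ∧ w.tail.getLast? = some j
          · rw [if_pos h4, Polynomial.coeff_X_pow, if_neg, smul_zero]
            intro h5
            exact hst (h3.mp ⟨h4, h5.symm⟩)
          · rw [if_neg h4]
            simp
      · intro C _ B hB x hx y hy z hz
        rw [ev3_cc]
        exact gg_mem f i j _ hn B hB x y z hx hy hz

/-! ### shifting -/

/-- replace `x` by `x z^N` in a word -/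
def gsh (N : ℕ) : List (Fin 3) → List (Fin 3)
  | [] => []
  | a :: w => if a = 0 then 0 :: (List.replicate N 2 ++ gsh N w) else a :: gsh N w

theorem gsh_inj (N : ℕ) : Function.Injective (gsh N) := by
  intro w
  induction w with
  | nil =>
    intro w' h
    cases w' with
    | nil => rfl
    | cons a w' =>
      simp only [gsh] at h
      split_ifs at h
  | cons a w ih =>
    intro w' h
    cases w' with
    | nil =>
      simp only [gsh] at h
      split_ifs at h
    | cons b w' =>
      simp only [gsh] at h
      split_ifs at h with h1 h2 h2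
      · subst h1; subst h2
        rw [List.cons_inj_right, List.append_cancel_left_eq] at h
        rw [ih h]
      · exact absurd (List.cons_eq_cons.mp h).1.symm h2
      · exact absurd (List.cons_eq_cons.mp h).1 h1
      · obtain ⟨h3, h4⟩ := List.cons_eq_cons.mp h
        rw [h3, ih h4]

theorem gsh_append (N : ℕ) (u v : List (Fin 3)) : gsh N (u ++ v) = gsh N u ++ gsh N v := by
  induction u with
  | nil => simp [gsh]
  | cons a u ih =>
    simp only [List.cons_append, gsh, ih]
    split_ifs <;> simp

theorem gsh_two (N k : ℕ) : gsh N (List.replicate k 2) = List.replicate k 2 := by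
  induction k with
  | zero => simp [gsh]
  | succ k ih =>
    rw [List.replicate_succ, gsh, if_neg (by decide), ih]

theorem gsh_count0 (N : ℕ) (w : List (Fin 3)) : (gsh N w).count 0 = w.count 0 := by
  induction w with
  | nil => simp [gsh]
  | cons a w ih =>
    simp only [gsh]
    split_ifs with h
    · subst h
      rw [List.count_cons_self, List.count_cons_self, List.count_append, ih,
        List.count_replicate]
      simp
    · rw [List.count_cons_of_ne h, List.count_cons_of_ne h, ih]

theorem gsh_count1 (N : ℕ) (w : List (Fin 3)) : (gsh N w).count 1 = w.count 1 := by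
  induction w with
  | nil => simp [gsh]
  | cons a w ih =>
    simp only [gsh]
    split_ifs with h
    · subst h
      rw [List.count_cons_of_ne (by decide), List.count_cons_of_ne (by decide),
        List.count_append, ih, List.count_replicate]
      simp
    · by_cases h1 : a = 1
      · subst h1
        rw [List.count_cons_self, List.count_cons_self, ih]
      · rw [List.count_cons_of_ne h1, List.count_cons_of_ne h1, ih]

theorem gsh_prod {C : Type} [Ring C] (N : ℕ) (x y z : C) (w : List (Fin 3)) :
    ((gsh N w).map ![x, y, z]).prod = (w.map ![x * z ^ N, y, z]).prod := by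
  induction w with
  | nil => simp [gsh]
  | cons a w ih =>
    simp only [gsh]
    fin_cases a
    · rw [if_pos (by rfl)]
      simp only [List.map_cons, List.prod_cons, List.map_append, List.prod_append, ih,
        List.map_replicate, List.prod_replicate]
      simp [mul_assoc]
    · rw [if_neg (by decide)]
      simp only [List.map_cons, List.prod_cons, ih]
      rfl
    · rw [if_neg (by decide)]
      simp only [List.map_cons, List.prod_cons, ih]
      rfl

/-- the shifted polynomial -/
noncomputable def shc (N : ℕ) (c : List (Fin 3) →₀ ℤ) : List (Fin 3) →₀ ℤ :=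
  Finsupp.mapDomain (gsh N) c

theorem ev3_shc {C : Type} [Ring C] (N : ℕ) (c : List (Fin 3) →₀ ℤ) (x y z : C) :
    ev3 (shc N c) x y z = ev3 c (x * z ^ N) y z := by
  unfold ev3 shc
  rw [Finsupp.sum_mapDomain_index (by simp) (by intro a b d; simp [add_smul])]
  simp only [gsh_prod]

theorem ev3_add {C : Type} [Ring C] (c d : List (Fin 3) →₀ ℤ) (x y z : C) :
    ev3 (c + d) x y z = ev3 c x y z + ev3 d x y z := by
  classical
  unfold ev3
  rw [Finsupp.sum_add_index' (by simp) (by intro a b d; simp [add_smul])]

theorem Cond0.shc {c : List (Fin 3) →₀ ℤ} (h : Cond0 c) (N : ℕ) : Cond0 (shc N c) := by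
  classical
  have key : ∀ w ∈ (RZ.shc N c).support, ∃ w' ∈ c.support, gsh N w' = w := by
    intro w hw
    have := Finsupp.mapDomain_support hw
    simpa using this
  constructor
  · intro w hw
    obtain ⟨w', hw', rfl⟩ := key w hw
    obtain ⟨h1, h2⟩ := h.two w' hw'
    rw [← List.count_pos_iff, ← List.count_pos_iff, gsh_count0, gsh_count1, List.count_pos_iff,
      List.count_pos_iff]
    exact ⟨h1, h2⟩
  · intro w hw h0 h1
    obtain ⟨w', hw', rfl⟩ := key w hw
    rw [gsh_count0] at h0
    rw [gsh_count1] at h1
    obtain ⟨i, j, k, rfl⟩ := h.lin w' hw' h0 h1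
    refine ⟨i, N + j, k, ?_⟩
    rw [gsh_append, gsh_two, gsh, if_pos rfl, gsh_append, gsh_two, gsh, if_neg (by decide),
      gsh_two, List.replicate_add, List.append_assoc]

theorem Cond0.add {c d : List (Fin 3) →₀ ℤ} (hc : Cond0 c) (hd : Cond0 d) : Cond0 (c + d) := by
  classical
  have key : ∀ w ∈ (c + d).support, w ∈ c.support ∨ w ∈ d.support := by
    intro w hw
    simpa using Finset.mem_union.mp (Finsupp.support_add hw)
  constructor
  · intro w hw
    rcases key w hw with h | h
    · exact hc.two w h
    · exact hd.two w h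
  · intro w hw
    rcases key w hw with h | h
    · exact hc.lin w h
    · exact hd.lin w h

/-- the pivot word -/
def pw (n : ℕ) : List (Fin 3) := 0 :: (List.replicate n 2 ++ [1])

theorem shc_pw (N : ℕ) (c : List (Fin 3) →₀ ℤ) (n : ℕ) : shc N c (pw (N + n)) = c (pw n) := by
  have : pw (N + n) = gsh N (pw n) := by
    unfold pw
    rw [gsh, if_pos rfl, gsh_append, gsh_two, gsh, if_neg (by decide), gsh,
      List.replicate_add, List.append_assoc]
  rw [this]
  exact Finsupp.mapDomain_apply (gsh_inj N) c (pw n)

theorem shc_pw_lt (N : ℕ) (c : List (Fin 3) →₀ ℤ) (n : ℕ) (h : n < N) :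
    shc N c (pw n) = 0 := by
  apply Finsupp.mapDomain_of_notMem_range
  rintro ⟨w, hw⟩
  cases w with
  | nil => simp [gsh, pw] at hw
  | cons a w =>
    unfold gsh pw at hw
    split_ifs at hw with h1
    · have h2 := (List.cons_eq_cons.mp hw).2
      have h3 : (List.replicate N (2 : Fin 3) ++ gsh N w)[n]? =
          (List.replicate n (2 : Fin 3) ++ [1])[n]? := by rw [h2]
      rw [List.getElem?_append_left (by simpa using h),
        List.getElem?_append_right (by simp)] at h3
      simp [h] at h3
    · exact h1 (List.cons_eq_cons.mp hw).1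

/-- the identity `c` follows from `S` -/
def Impl (S : Set (List ℕ →₀ ℤ)) (c : List (Fin 3) →₀ ℤ) : Prop :=
  ∀ (C : Type) [Ring C] (B : TwoSidedIdeal C),
      (∀ f ∈ S, ∀ a : ℕ → C, (∀ i, a i ∈ B) →
        (f.sum fun w r => if w = [] then 0 else r • (w.map a).prod) = 0) →
      ∀ x ∈ B, ∀ y ∈ B, ∀ z ∈ B, ev3 c x y z = 0

theorem merge {S : Set (List ℕ →₀ ℤ)} {c d : List (Fin 3) →₀ ℤ} (hc : Cond0 c) (hd : Cond0 d)
    (ic : Impl S c) (id : Impl S d) : ∃ e : List (Fin 3) →₀ ℤ, Cond0 e ∧ Impl S e ∧
      ∀ p : ℕ, ((∃ n, ¬ (p : ℤ) ∣ c (pw n)) ∨ (∃ n, ¬ (p : ℤ) ∣ d (pw n))) →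
        ∃ n, ¬ (p : ℤ) ∣ e (pw n) := by
  classical
  set N : ℕ := c.support.sup List.length + 1 with hN
  have hbig : ∀ n, N ≤ n → c (pw n) = 0 := by
    intro n hn
    by_contra hne
    have := Finset.le_sup (f := List.length) (Finsupp.mem_support_iff.mpr hne)
    simp only [pw, List.length_cons, List.length_append, List.length_replicate,
      List.length_nil] at this
    omega
  refine ⟨c + shc N d, hc.add (hd.shc N), ?_, ?_⟩
  · intro C _ B hB x hx y hy z hz
    rw [ev3_add, ev3_shc, ic C B hB x hx y hy z hz, id C B hB (x * z ^ N)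
      (B.mul_mem_right _ _ hx) y hy z hz, add_zero]
  · rintro p (⟨n, hn⟩ | ⟨n, hn⟩)
    · refine ⟨n, ?_⟩
      have hlt : n < N := by
        by_contra hge
        apply hn
        rw [hbig n (by omega)]
        exact dvd_zero _
      rw [Finsupp.add_apply, shc_pw_lt N d n hlt, add_zero]
      exact hn
    · refine ⟨N + n, ?_⟩
      rw [Finsupp.add_apply, shc_pw, hbig (N + n) (by omega), zero_add]
      exact hn

/-- JOB Z-GSTAR -/
theorem gstar (S : Set (List ℕ →₀ ℤ))
    (hS : ∀ p : ℕ, p.Prime → ∃ f ∈ S, ∃ w : List ℕ, w ≠ [] ∧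
      ¬ (p : ℤ) ∣ ∑ᶠ (w' : List ℕ) (_ : SameType w w'), f w') :
    ∃ c : List (Fin 3) →₀ ℤ, Cond c ∧ ∀ (C : Type) [Ring C] (B : TwoSidedIdeal C),
      (∀ f ∈ S, ∀ a : ℕ → C, (∀ i, a i ∈ B) →
        (f.sum fun w r => if w = [] then 0 else r • (w.map a).prod) = 0) →
      ∀ x ∈ B, ∀ y ∈ B, ∀ z ∈ B, ev3 c x y z = 0 := by
  classical
  have single : ∀ p : ℕ, p.Prime → ∃ c : List (Fin 3) →₀ ℤ, Cond0 c ∧ Impl S c ∧
      ∃ n, ¬ (p : ℤ) ∣ c (pw n) := by
    intro p hp
    obtain ⟨f, hf, w, hw, hd⟩ := hS p hp
    obtain ⟨c, h1, ⟨n, hn⟩, h2⟩ := gstar1 f w hw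
    refine ⟨c, h1, fun C _ B hB => h2 C B (hB f hf), n, ?_⟩
    unfold pw
    rw [hn]
    exact hd
  obtain ⟨c2, h1, h2, n2, h3⟩ := single 2 Nat.prime_two
  have hne : c2 (pw n2) ≠ 0 := fun h => h3 (by rw [h]; exact dvd_zero _)
  have key : ∀ T : Finset ℕ, (∀ p ∈ T, p.Prime) → ∃ c : List (Fin 3) →₀ ℤ, Cond0 c ∧ Impl S c ∧
      ∀ p : ℕ, (p ∈ T ∨ ¬ (p : ℤ) ∣ c2 (pw n2)) → ∃ n, ¬ (p : ℤ) ∣ c (pw n) := by
    intro T
    induction T using Finset.induction_on with
    | empty =>
      intro _
      refine ⟨c2, h1, h2, fun p hp => ?_⟩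
      rcases hp with hp | hp
      · simp at hp
      · exact ⟨n2, hp⟩
    | insert q T hq ih =>
      intro hT
      obtain ⟨c, k1, k2, k3⟩ := ih (fun p hp => hT p (Finset.mem_insert_of_mem hp))
      obtain ⟨d, l1, l2, l3⟩ := single q (hT q (Finset.mem_insert_self _ _))
      obtain ⟨e, m1, m2, m3⟩ := merge k1 l1 k2 l2
      refine ⟨e, m1, m2, fun p hp => m3 p ?_⟩
      rcases hp with hp | hp
      · rcases Finset.mem_insert.mp hp with rfl | hp
        · exact Or.inr l3
        · exact Or.inl (k3 p (Or.inl hp))
      · exact Or.inl (k3 p (Or.inr hp))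
  obtain ⟨c, k1, k2, k3⟩ := key (c2 (pw n2)).natAbs.primeFactors
    (fun p hp => Nat.prime_of_mem_primeFactors hp)
  refine ⟨c, ⟨k1.two, k1.lin, fun p hp => ?_⟩, fun C _ B hB => k2 C B hB⟩
  apply k3
  by_cases h : (p : ℤ) ∣ c2 (pw n2)
  · left
    rw [Nat.mem_primeFactors]
    exact ⟨hp, Int.natCast_dvd.mp h, Int.natAbs_ne_zero.mpr hne⟩
  · exact Or.inr h

end Pool.Agent.TH142.RZ
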