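import Pool.Agent.TH37.RZ.Defs
import Pool.Agent.TH37.RF.SH1
import Pool.Agent.TH142.RF.SH2

set_option autoImplicit false

namespace Pool.Agent.TH142.RZ

open Pool.Agent.TH37.RF (commIdeal NilpId TT zword wd)
open Pool.Agent.TH142.RF (wd_append wd_flatten lex_mid)

/-- JOB Z-SH2 -/
theorem marked_nilp
    {C : Type} [Ring C] (Λ : Type) [Finite Λ]
    (v : Λ → C) (mark : Λ → Bool) (d : ℕ) (c : Equiv.Perm (Fin d) → ℤ) (hc : c 1 = 1)
    (hid : ∀ w : Fin d → List Λ, (∀ i, w i ≠ []) →
      ∑ π, c π • (List.ofFn fun k => wd v (w (π k))).prod = 0)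
    (hnil : ∀ w : List Λ, (∃ x ∈ w, mark x = true) → IsNilpotent (wd v w)) :
    ∃ M : ℕ, ∀ l : List Λ, M ≤ l.countP mark → wd v l = 0 := by
  classical
  obtain ⟨n, ⟨e⟩⟩ := Finite.exists_equiv_fin Λ
  let _ : LinearOrder Λ := LinearOrder.lift' e e.injective
  -- common nilpotency exponent
  have hfin : {u : List Λ | u.length ≤ d}.Finite := List.finite_length_le Λ d
  have hK : ∃ K : ℕ, ∀ u : List Λ, u.length ≤ d → (∃ x ∈ u, mark x = true) →
      (wd v u) ^ K = 0 := by
    have h1 : ∀ u : List Λ, ∃ k : ℕ, (∃ x ∈ u, mark x = true) → (wd v u) ^ k = 0 := by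
      intro u
      by_cases hu : ∃ x ∈ u, mark x = true
      · obtain ⟨k, hk⟩ := hnil u hu
        exact ⟨k, fun _ => hk⟩
      · exact ⟨0, fun h => absurd h hu⟩
    choose k hk using h1
    refine ⟨hfin.toFinset.sup k, fun u hu hm => ?_⟩
    have hle : k u ≤ hfin.toFinset.sup k := Finset.le_sup (f := k) (by simpa using hu)
    exact pow_eq_zero_of_le hle (hk u hm)
  obtain ⟨K, hK⟩ := hK
  obtain ⟨M, hM⟩ := Pool.Agent.TH37.SH1.shirshov_comb Λ mark d K
  refine ⟨M, ?_⟩
  have key : ∀ (n : ℕ) (l : List Λ), l.length = n → M ≤ l.countP mark → wd v l = 0 := by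
    intro n
    by_contra hcon
    push Not at hcon
    have hfinn : {l : List Λ | l.length = n ∧ M ≤ l.countP mark ∧ wd v l ≠ 0}.Finite :=
      (List.finite_length_eq Λ n).subset (fun l hl => hl.1)
    have hne : {l : List Λ | l.length = n ∧ M ≤ l.countP mark ∧ wd v l ≠ 0}.Nonempty := by
      obtain ⟨l, h1, h2, h3⟩ := hcon
      exact ⟨l, h1, h2, h3⟩
    obtain ⟨l, hl⟩ := hfinn.exists_minimal hne
    obtain ⟨⟨hl1, hl2, hl3⟩, hlmin⟩ := hl
    apply hl3
    rcases hM l hl2 with ⟨a, u, b, h1, h2, h3⟩ | ⟨a, w, b, h1, h2, h3⟩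
    · rw [h1, wd_append, wd_append, wd_flatten, List.map_replicate, List.prod_replicate,
        hK u h2 h3]
      simp
    · have e1 : ∀ π : Equiv.Perm (Fin d), (List.ofFn fun k => wd v (w (π k))).prod =
          wd v (List.ofFn fun k => w (π k)).flatten := by
        intro π
        rw [wd_flatten, List.map_ofFn]
        rfl
      have e2 : ∀ π : Equiv.Perm (Fin d), π ≠ 1 →
          wd v (a ++ (List.ofFn fun k => w (π k)).flatten ++ b) = 0 := by
        intro π hπ
        by_contra hne
        have hperm : (List.ofFn fun k => w (π k)).flatten.Perm (List.ofFn w).flatten := by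
          apply List.Perm.flatten
          exact Equiv.Perm.ofFn_comp_perm π w
        have hlt := h3 π hπ
        have hlen : (a ++ (List.ofFn fun k => w (π k)).flatten ++ b).length = n := by
          rw [← hl1, h1]
          simp only [List.length_append, hperm.length_eq]
        have hcnt : M ≤ (a ++ (List.ofFn fun k => w (π k)).flatten ++ b).countP mark := by
          refine hl2.trans (le_of_eq ?_)
          rw [h1]
          simp only [List.countP_append, hperm.countP_eq]
        have hle := hlmin (y := a ++ (List.ofFn fun k => w (π k)).flatten ++ b) ⟨hlen, hcnt, hne⟩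
        have hlt2 : a ++ (List.ofFn fun k => w (π k)).flatten ++ b < l := by
          rw [h1]
          exact lex_mid a b _ _ hperm.length_eq hlt
        exact absurd (hle hlt2.le) (not_le.mpr hlt2)
      have e3 := hid w h2
      rw [← Finset.add_sum_erase _ _ (Finset.mem_univ (1 : Equiv.Perm (Fin d))), hc, one_smul] at e3
      have e4 : wd v l = wd v a * (List.ofFn fun k => wd v (w ((1 : Equiv.Perm (Fin d)) k))).prod
          * wd v b := by
        rw [e1, ← wd_append, ← wd_append, h1]
        rfl
      have e5 : (List.ofFn fun k => wd v (w ((1 : Equiv.Perm (Fin d)) k))).prod =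
          - ∑ x ∈ Finset.univ.erase (1 : Equiv.Perm (Fin d)),
            c x • (List.ofFn fun k => wd v (w (x k))).prod := by
        rw [eq_neg_iff_add_eq_zero]
        exact e3
      rw [e4, e5, mul_neg, neg_mul, Finset.mul_sum, Finset.sum_mul, neg_eq_zero]
      apply Finset.sum_eq_zero
      intro π hπ
      have hπ1 : π ≠ 1 := (Finset.mem_erase.mp hπ).1
      rw [mul_smul_comm, smul_mul_assoc, e1, ← wd_append, ← wd_append, e2 π hπ1, smul_zero]
  intro l hl
  exact key l.length l rfl hl

end Pool.Agent.TH142.RZ
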